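import Pool.Agent.W674.LVG.Supp
import Pool.Agent.W674.LVF.Stm3

/-! # The boundary of a convex body is integer rectifiable -/

set_option autoImplicit false
set_option linter.unusedSectionVars false

open MeasureTheory Set Filter Topology Asymptotics
open scoped ENNReal NNReal

namespace Pool.Agent.W674.LVG

open Pool.Agent.W674

theorem lip_comp_vec {a b : ℕ} {q : Rn b → ℝ} (hq : LVR.Lip q) {F : Rn a → Rn b}
    (hF : ∃ C : ℝ≥0, LipschitzWith C F) : LVR.Lip (fun u => q (F u)) := by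
  obtain ⟨K, hK⟩ := hq
  obtain ⟨C, hC⟩ := hF
  exact ⟨_, hK.comp hC⟩

theorem lip_insert {n : ℕ} (i : Fin (n + 1)) (s : ℝ) :
    ∃ C : ℝ≥0, LipschitzWith C (fun w : Rn n => (i.insertNth s w : Rn (n + 1))) := by
  refine ⟨1, LipschitzWith.of_dist_le_mul fun u v => ?_⟩
  rw [NNReal.coe_one, one_mul, dist_pi_le_iff dist_nonneg]
  intro j
  refine Fin.succAboveCases i ?_ (fun l => ?_) j
  · simp
  · simp only [Fin.insertNth_apply_succAbove]
    exact dist_le_pi_dist u v l

variable {n : ℕ} {Y : Type} [MetricSpace Y] [MeasurableSpace Y] [BorelSpace Y]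
  {p : Seminorm ℝ (Rn (n + 1))} {e : Y → Rn (n + 1)}

/-- Stokes' theorem on the body, through the retraction -/
theorem body_stokes (hs : LVF.S_stokes) (hd : LVF.S_dens) (h : LVF.IsBody p e)
    {P : Rn (n + 1) → Rn (n + 1)} (hP : ∃ C : ℝ≥0, LipschitzWith C P)
    (hPid : ∀ u ∈ range e, P u = u)
    (hPz : ∀ G : Fin (n + 1) → Rn (n + 1) → ℝ, (∀ j, LVR.Lip (G j)) →
      ∀ᵐ u ∂(volume.restrict (range e)ᶜ), LVR.jac (fun j v => G j (P v)) u = 0)
    {r : ℝ} (hr : 0 < r) (hsub : range e ⊆ LVF.cube (n + 1) r)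
    {g : Y → ℝ} {π : Fin n → Y → ℝ} {G : Rn (n + 1) → ℝ}
    {Q : Fin n → Rn (n + 1) → ℝ} (hG : LVR.Lip G) (hQ : ∀ j, LVR.Lip (Q j))
    (hGe : ∀ y, g y = G (e y)) (hQe : ∀ j y, π j y = Q j (e y)) :
    LVR.boundary (LVF.bodyCurrent e) g π =
    ∑ i : Fin (n + 1), (-1 : ℝ) ^ (i : ℕ) *
      ((∫ w in LVF.cube n r, G (P (i.insertNth r w)) *
          LVR.jac (fun j (v : Rn n) => Q j (P (i.insertNth r v))) w) -
        ∫ w in LVF.cube n r, G (P (i.insertNth (-r) w)) *
          LVR.jac (fun j (v : Rn n) => Q j (P (i.insertNth (-r) v))) w) := by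
  rw [← hs n r (fun u => G (P u)) (fun j u => Q j (P u)) hr (lip_comp_vec hG hP)
    fun j => lip_comp_vec (hQ j) hP]
  set R : Fin (n + 1) → Rn (n + 1) → ℝ := Fin.cons G Q with hR
  have hRl : ∀ j, LVR.Lip (R j) := LVF.lip_cons hG hQ
  have hRe : ∀ (j : Fin (n + 1)) (y : Y),
      (Fin.cons g π : Fin (n + 1) → Y → ℝ) j y = R j (e y) := by
    intro j y
    refine Fin.cases ?_ (fun i => ?_) j
    · exact hGe y
    · exact hQe i y
  have hRP : (Fin.cons (fun u => G (P u)) (fun j u => Q j (P u)) :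
      Fin (n + 1) → Rn (n + 1) → ℝ) = fun j v => R j (P v) := by
    ext j v
    refine Fin.cases ?_ (fun i => ?_) j
    · rfl
    · rfl
  have hRPl : ∀ j, LVR.Lip (fun v => R j (P v)) := fun j => lip_comp_vec (hRl j) hP
  have hm := h.measurableSet
  have hcm : MeasurableSet (LVF.cube (n + 1) r) := measurableSet_Icc
  have e1 : LVR.boundary (LVF.bodyCurrent e) g π =
      ∫ u in range e, LVR.jac (fun j v => R j (P v)) u := by
    unfold LVR.boundary LVF.bodyCurrent
    refine integral_congr_ae ?_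
    have hd1 : ∀ᵐ u, ∀ j, DifferentiableAt ℝ (R j) u := ae_all_iff.2 fun j => LVF.Lip.ae_diff (hRl j)
    have hd2 : ∀ᵐ u, ∀ j, DifferentiableAt ℝ (fun v => R j (P v)) u :=
      ae_all_iff.2 fun j => LVF.Lip.ae_diff (hRPl j)
    filter_upwards [h.ae_jac hd hRl hRe, ae_restrict_mem hm, LVF.ae_good hd hm,
      ae_restrict_of_ae hd1, ae_restrict_of_ae hd2] with u h1 h2 h3 h4 h5
    have h6 : LVR.jac R u = LVR.jac (fun j v => R j (P v)) u := by
      unfold LVR.jac
      congr 1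
      ext a b
      simp only [Matrix.of_apply]
      have a1 := h3.fderivWithin_eq (f := R a) (Q := R a) h2 (fun v _ => rfl) (h4 a)
      have a2 := h3.fderivWithin_eq (f := R a) (Q := fun v => R a (P v)) h2
        (fun v hv => by show R a v = R a (P v); rw [hPid v hv]) (h5 a)
      rw [← a1, a2]
    rw [h1, h6]
    obtain ⟨y, rfl⟩ := h2
    rw [h.exte_apply (fun _ => (1 : ℝ)), one_mul]
  rw [e1, hRP]
  -- the integral outside the body vanishes
  have hz := hPz R hRl
  rw [ae_restrict_iff' hm.compl] at hz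
  symm
  have e2 : ∫ u in LVF.cube (n + 1) r, LVR.jac (fun j v => R j (P v)) u =
      ∫ u in LVF.cube (n + 1) r, (range e).indicator (LVR.jac (fun j v => R j (P v))) u := by
    refine integral_congr_ae ?_
    filter_upwards [ae_restrict_of_ae hz] with u hu
    by_cases hue : u ∈ range e
    · rw [indicator_of_mem hue]
    · rw [indicator_of_notMem hue, hu hue]
  rw [e2, integral_indicator hm, Measure.restrict_restrict hm, inter_eq_self_of_subset_left hsub]

/-- the boundary of the body is integer rectifiable -/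
theorem body_boundary_rep (hs : LVF.S_stokes) (hretr : LVF.S_retr) (I : Ing)
    (h : LVF.IsBody p e) :
    ∃ D : LVF.Param n Y, D.IsRep (LVR.boundary (LVF.bodyCurrent e)) := by
  obtain ⟨P, hP, hPid, hPmem, hPz⟩ := hretr (n + 1) (range e) h.compact h.convex h.interior
  obtain ⟨r, hr, hsub⟩ : ∃ r : ℝ, 0 < r ∧ range e ⊆ LVF.cube (n + 1) r := by
    obtain ⟨r, hr⟩ := h.compact.isBounded.subset_closedBall (0 : Rn (n + 1))
    refine ⟨max r 1, by positivity, fun u hu => ?_⟩
    have h1 := hr hu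
    rw [mem_closedBall_zero_iff] at h1
    have h2 : ∀ i, |u i| ≤ max r 1 := fun i =>
      ((norm_le_pi_norm u i).trans h1).trans (le_max_left _ _)
    exact ⟨fun i => (abs_le.1 (h2 i)).1, fun i => (abs_le.1 (h2 i)).2⟩
  have hne : Nonempty Y := by
    obtain ⟨u, hu⟩ := h.interior
    obtain ⟨y, -⟩ := interior_subset hu
    exact ⟨y⟩
  set g : Rn (n + 1) → Y := Function.invFun e with hg
  have hge : ∀ y, g (e y) = y := Function.leftInverse_invFun h.inj
  have heg : ∀ u ∈ range e, e (g u) = u := by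
    rintro _ ⟨y, rfl⟩
    rw [hge]
  obtain ⟨B, hB, hBb⟩ := LVF.seminorm_bound p
  set sg : Bool → ℝ := fun b => if b then r else -r with hsg
  set Φ : Fin (n + 1) × Bool → Rn n → Rn (n + 1) := fun i w => P (i.1.insertNth (sg i.2) w) with hΦ
  have hΦl : ∀ i, ∃ C : ℝ≥0, LipschitzWith C (Φ i) := by
    intro i
    obtain ⟨C, hC⟩ := hP
    obtain ⟨C', hC'⟩ := lip_insert i.1 (sg i.2)
    exact ⟨_, hC.comp hC'⟩
  have hΦm : ∀ i w, Φ i w ∈ range e := fun i w => hPmem _
  set D : LVF.Param n Y :=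
    { ι := Fin (n + 1) × Bool
      A := fun _ => LVF.cube n r
      φ := fun i w => g (Φ i w)
      θ := fun i _ => if i.2 then (-1) ^ (i.1 : ℕ) else -(-1) ^ (i.1 : ℕ)
      N := fun i u => p.comp (fderiv ℝ (Φ i) u : Rn n →ₗ[ℝ] Rn (n + 1)) } with hDdef
  have hΦd : ∀ i, ∀ᵐ u, DifferentiableAt ℝ (Φ i) u := fun i =>
    (hΦl i).choose_spec.ae_differentiableAt
  have hcm : MeasurableSet (LVF.cube n r) := measurableSet_Icc
  have hD : D.IsLip := by
    refine ⟨inferInstanceAs (Countable (Fin (n + 1) × Bool)), fun _ => hcm, fun i => ?_,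
      fun _ => measurable_const, fun i w => ?_, fun i => ?_⟩
    · obtain ⟨C, hC⟩ := hΦl i
      refine ⟨B.toNNReal * C, LipschitzOnWith.of_dist_le_mul fun u _ v _ => ?_⟩
      show dist (g (Φ i u)) (g (Φ i v)) ≤ _
      rw [h.dist_eq, heg _ (hΦm i u), heg _ (hΦm i v)]
      refine (hBb _).trans ?_
      push_cast
      rw [Real.coe_toNNReal _ hB.le, mul_assoc, ← dist_eq_norm]
      exact mul_le_mul_of_nonneg_left (hC.dist_le_mul u v) hB.le
    · exact (LVF.seminorm_continuous p).measurable.comp (measurable_fderiv_apply_const ℝ (Φ i) w)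
    · filter_upwards [ae_restrict_of_ae (hΦd i)] with u hu
      refine LVF.isMD_of_hasFDerivWithinAt h.dist_eq ?_
      have h1 : e ∘ D.φ i = Φ i := funext fun w => heg _ (hΦm i w)
      rw [h1]
      exact hu.hasFDerivAt.hasFDerivWithinAt
  have hcost : D.cost LVF.busemann < ⊤ := by
    show ∑' i : Fin (n + 1) × Bool, ∫⁻ u in LVF.cube n r, _ < ⊤
    rw [tsum_fintype]
    refine ENNReal.sum_lt_top.2 fun i _ => ?_
    obtain ⟨C, hC⟩ := hΦl i
    set M : Seminorm ℝ (Rn n) := (B.toNNReal * C) • normSeminorm ℝ (Rn n) with hM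
    have hle : ∀ u, D.N i u ≤ M := by
      intro u w
      show p (fderiv ℝ (Φ i) u w) ≤ ((B.toNNReal * C : ℝ≥0) : ℝ) * ‖w‖
      refine (hBb _).trans ?_
      push_cast
      rw [Real.coe_toNNReal _ hB.le, mul_assoc]
      refine mul_le_mul_of_nonneg_left ?_ hB.le
      exact ((fderiv ℝ (Φ i) u).le_opNorm w).trans
        (mul_le_mul_of_nonneg_right (norm_fderiv_le_of_lipschitz ℝ hC) (norm_nonneg _))
    have hvol : volume (LVF.cube n r) < ⊤ := isCompact_Icc.measure_lt_top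
    have hθ : ∀ u, ‖((D.θ i u : ℤ) : ℝ)‖ₑ ≤ 1 := by
      intro u
      show ‖(((if i.2 then (-1) ^ (i.1 : ℕ) else -(-1) ^ (i.1 : ℕ) : ℤ)) : ℝ)‖ₑ ≤ 1
      split_ifs
      · simp
      · simp
    calc ∫⁻ u in LVF.cube n r, ‖((D.θ i u : ℤ) : ℝ)‖ₑ * LVF.busemann (D.N i u)
        ≤ ∫⁻ _ in LVF.cube n r, 1 * LVF.busemann M :=
          lintegral_mono fun u => mul_le_mul' (hθ u) ((I.bus n).mono _ _ (hle u))
      _ = 1 * LVF.busemann M * volume (LVF.cube n r) := by rw [setLIntegral_const]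
      _ < ⊤ := by
        rw [one_mul]
        exact ENNReal.mul_lt_top ((I.bus n).lt_top M) hvol
  have hrep : D.Represents (LVR.boundary (LVF.bodyCurrent e)) := by
    intro q π hq hπ
    obtain ⟨G, hG, hGe⟩ := h.exists_ext hq.1
    choose Q hQ hQe using fun j => h.exists_ext (hπ j)
    rw [body_stokes hs I.dens h hP hPid hPz hr hsub hG hQ hGe hQe]
    have hterm : ∀ i : Fin (n + 1) × Bool, ∫ u in D.A i, (D.θ i u : ℝ) * q (D.φ i u) *
        LVR.jacW (D.A i) (fun j => π j ∘ D.φ i) u =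
        ((if i.2 then (-1) ^ (i.1 : ℕ) else -(-1) ^ (i.1 : ℕ) : ℤ) : ℝ) *
        ∫ w in LVF.cube n r, G (P (i.1.insertNth (sg i.2) w)) *
          LVR.jac (fun j (v : Rn n) => Q j (P (i.1.insertNth (sg i.2) v))) w := by
      intro i
      rw [← integral_const_mul]
      refine integral_congr_ae ?_
      have hl : ∀ j, LVR.Lip (fun v : Rn n => Q j (Φ i v)) := fun j =>
        lip_comp_vec (hQ j) (hΦl i)
      have h1 := LVF.ae_jac I.dens hD i hπ (Q := fun j v => Q j (Φ i v)) hl (fun j u _ => by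
        show π j (g (Φ i u)) = Q j (Φ i u)
        rw [hQe, heg _ (hΦm i u)])
      filter_upwards [h1] with u hu
      rw [hu]
      have h2 : q (D.φ i u) = G (Φ i u) := by
        show q (g (Φ i u)) = _
        rw [hGe, heg _ (hΦm i u)]
      rw [h2]
      show ((if i.2 then (-1) ^ (i.1 : ℕ) else -(-1) ^ (i.1 : ℕ) : ℤ) : ℝ) * G (Φ i u) *
        LVR.jac (fun j v => Q j (Φ i v)) u = _
      rw [mul_assoc]
    have hfin : HasSum (fun i : Fin (n + 1) × Bool => ∫ u in D.A i, (D.θ i u : ℝ) * q (D.φ i u) *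
        LVR.jacW (D.A i) (fun j => π j ∘ D.φ i) u)
        (∑ i : Fin (n + 1) × Bool, ∫ u in D.A i, (D.θ i u : ℝ) * q (D.φ i u) *
        LVR.jacW (D.A i) (fun j => π j ∘ D.φ i) u) := hasSum_fintype _
    convert hfin using 1
    simp_rw [hterm]
    rw [Fintype.sum_prod_type]
    refine Finset.sum_congr rfl fun i _ => ?_
    rw [Fintype.sum_bool]
    simp only [hsg, if_true, Bool.false_eq_true, if_false]
    push_cast
    ring
  obtain ⟨D1, l1, b1, r1, -, a2⟩ := I.pieces n (n + 1) p Y inferInstance e LVF.busemann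
      D _ h.nrm h.dist_eq (I.bus n) (I.bus n) hD hcost hrep
  obtain ⟨D2, h2, -⟩ := I.disj n Y inferInstance inferInstance inferInstance LVF.busemann D1 _
      (I.bus n) (I.bus n) l1 b1 (lt_of_le_of_lt a2 hcost) r1
  exact ⟨D2, h2⟩

end Pool.Agent.W674.LVG
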