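import Pool.Agent.W674.LVG.Defs
import Pool.Agent.W674.LVF.Stm2
import Pool.Agent.W674.LVF.Core

/-! # Passing between the two descriptions of representations -/

set_option autoImplicit false
set_option linter.unusedSectionVars false

open MeasureTheory Set Filter Topology Asymptotics
open scoped ENNReal NNReal

namespace Pool.Agent.W674.LVG

open Pool.Agent.W674

variable {k : ℕ} {E : Type} [MetricSpace E]

theorem blip_iff {f : E → ℝ} : BLip f ↔ LVR.BLip f := Iff.rfl

theorem lip_iff {f : E → ℝ} : Lip f ↔ LVR.Lip f := Iff.rfl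

theorem metricDeriv_eq {φ : Rn k → E} {A : Set (Rn k)} {u : Rn k} {N : Seminorm ℝ (Rn k)}
    (hg : LVF.Good A u) (h : LVF.IsMD φ A u N) : metricDeriv φ A u = N := by
  have hex : ∃ N, IsMD φ A u N := ⟨N, h⟩
  unfold metricDeriv
  rw [dif_pos hex]
  have h2 : LVF.IsMD φ A u hex.choose := hex.choose_spec
  exact hg.isMD_unique h2 h

theorem exists_param (hk : LVF.S_kir) (hd : LVF.S_dens) {D : Pieces k E} {T : Fnl k E}
    (h : D.Represents T) : ∃ P : LVF.Param k E, P.IsRep T ∧ ∀ J, P.cost J = D.mass J := by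
  have hlip : ∀ i, ∃ K : ℝ≥0, LipschitzOnWith K (D.φ i) (D.A i) := by
    intro i
    obtain ⟨K, hK⟩ := h.biLip i
    exact ⟨K, LipschitzOnWith.of_dist_le_mul fun u hu v hv => (hK u hu v hv).1⟩
  choose N hNm hNd using fun i => hk k E inferInstance (D.φ i) (D.A i) (h.measurableSet i) (hlip i)
  set P : LVF.Param k E := ⟨D.ι, D.A, D.φ, D.θ, N⟩ with hP
  have hcost : ∀ J, P.cost J = D.mass J := by
    intro J
    refine tsum_congr fun (i : D.ι) => ?_
    refine lintegral_congr_ae ?_
    filter_upwards [LVF.ae_good hd (h.measurableSet i), hNd i] with u h1 h2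
    rw [metricDeriv_eq h1 h2]
  refine ⟨P, ⟨⟨h.countable, h.measurableSet, hlip, h.measurable, hNm, hNd⟩, h.biLip, h.disjoint,
    fun f π hf hπ => h.eq f π hf hπ, ?_⟩, hcost⟩
  have h1 : P.cost LVF.busemann = D.mass busemann := hcost _
  rw [h1]
  exact h.finite

theorem exists_pieces (hd : LVF.S_dens) {P : LVF.Param k E} {T : Fnl k E}
    (h : P.IsRep T) : ∃ D : Pieces k E, D.Represents T ∧ ∀ J, D.mass J = P.cost J := by
  set D : Pieces k E := ⟨P.ι, P.A, P.φ, P.θ⟩ with hD
  have hcost : ∀ J, D.mass J = P.cost J := by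
    intro J
    refine tsum_congr fun (i : P.ι) => ?_
    refine lintegral_congr_ae ?_
    filter_upwards [LVF.ae_good hd (h.isLip.measA i), h.isLip.md i] with u h1 h2
    have h3 := metricDeriv_eq h1 h2
    show _ * J (metricDeriv (P.φ i) (P.A i) u) = _
    rw [h3]
  refine ⟨D, ⟨h.isLip.countable, h.isLip.measA, h.isLip.measθ, h.biLip, h.disj, ?_,
    fun f π hf hπ => h.represents f π hf hπ⟩, hcost⟩
  rw [hcost]
  exact h.finite

theorem finslerMass_eq' (hk : LVF.S_kir) (hd : LVF.S_dens) (J : Seminorm ℝ (Rn k) → ℝ≥0∞)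
    (T : Fnl k E) : finslerMass J T = LVF.finslerMass J T := by
  refine le_antisymm ?_ ?_
  · refine le_iInf fun P => le_iInf fun h => ?_
    obtain ⟨D, hD, hc⟩ := exists_pieces hd h
    rw [← hc J]
    exact iInf_le_of_le D (iInf_le_of_le hD le_rfl)
  · refine le_iInf fun D => le_iInf fun h => ?_
    obtain ⟨P, hP, hc⟩ := exists_param hk hd h
    rw [← hc J]
    exact iInf_le_of_le P (iInf_le_of_le hP le_rfl)

variable [MeasurableSpace E] [BorelSpace E]

/-- the mass is the cost of any representation -/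
theorem finslerMass_eq_cost (hd : LVF.S_dens) (hn : LVF.S_null) (hb : LVF.S_bus)
    {J : Seminorm ℝ (Rn k) → ℝ≥0∞} (hJ : LVF.VolFun k J) (hcmp : LVF.S_cmp)
    {P : LVF.Param k E} {T : Fnl k E} (h : P.IsRep T) : LVF.finslerMass J T = P.cost J ∧
      P.cost J < ⊤ := by
  have key : ∀ {R : LVF.Param k E}, R.IsRep T → R.cost J < ⊤ := by
    intro R hR
    obtain ⟨C, hC⟩ := hcmp k LVF.busemann J (hb k) hJ
    have h1 : R.cost J ≤ C * R.cost LVF.busemann := by
      rw [LVF.cost_om, LVF.cost_om, ← lintegral_const_mul' _ _ ENNReal.coe_ne_top]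
      refine lintegral_mono_ae ?_
      filter_upwards [LVF.ae_isNrm hd hR.isLip hR.biLip] with z hz
      calc _ ≤ ‖(R.θ z.1 z.2 : ℝ)‖ₑ * (C * LVF.busemann (R.N z.1 z.2)) :=
            mul_le_mul' le_rfl (hC _ hz)
        _ = _ := by ring
    exact h1.trans_lt (ENNReal.mul_lt_top ENNReal.coe_lt_top hR.finite)
  refine ⟨le_antisymm (iInf_le_of_le P (iInf_le_of_le h le_rfl)) ?_, key h⟩
  refine le_iInf fun R => le_iInf fun hR => ?_
  exact LVF.cost_le hd hn hJ (hb k) h.isLip h.biLip h.disj h.represents h.finite hR.isLip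
    hR.represents (key hR)

end Pool.Agent.W674.LVG
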