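import Mathlib

/-!
# Lipschitz-volume rigidity of normed convex bodies for Finsler masses: definitions

Metric currents are those of Ambrosio and Kirchheim. A functional `T` of dimension `n` on a metric
space `E` is a real function of `(f, π₁, …, πₙ)`; only its values for `f` bounded Lipschitz and
`πᵢ` Lipschitz matter. This file is self-contained.
-/

set_option autoImplicit false

open MeasureTheory Set Filter Topology Asymptotics
open scoped ENNReal NNReal

namespace Pool.Agent.W674.LVG

/-- `ℝᵏ` -/
abbrev Rn (k : ℕ) : Type := Fin k → ℝ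

/-- bounded Lipschitz real functions -/
def BLip {E : Type} [PseudoMetricSpace E] (f : E → ℝ) : Prop :=
  (∃ K : ℝ≥0, LipschitzWith K f) ∧ ∃ C : ℝ, ∀ x, |f x| ≤ C

/-- Lipschitz real functions -/
def Lip {E : Type} [PseudoMetricSpace E] (f : E → ℝ) : Prop := ∃ K : ℝ≥0, LipschitzWith K f

/-- functionals of dimension `n` on `E` (only the values on bounded Lipschitz `f` and Lipschitz `π`
matter) -/
abbrev Fnl (n : ℕ) (E : Type) : Type := (E → ℝ) → (Fin n → E → ℝ) → ℝ

/-- the two functionals agree (on bounded Lipschitz `f` and Lipschitz `π`) -/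
def Same {n : ℕ} {E : Type} [PseudoMetricSpace E] (T S : Fnl n E) : Prop :=
  ∀ (f : E → ℝ) (π : Fin n → E → ℝ), BLip f → (∀ i, Lip (π i)) → T f π = S f π

/-- the finite Borel measure `ν` controls `T`:
`|T(f, π)| ≤ ∏ Lip(πᵢ) ∫ |f| dν` for all `(f, π)` -/
def Controls {n : ℕ} {E : Type} [PseudoMetricSpace E] [MeasurableSpace E] (T : Fnl n E)
    (ν : Measure E) : Prop :=
  IsFiniteMeasure ν ∧ ∀ (f : E → ℝ) (π : Fin n → E → ℝ) (K : Fin n → ℝ≥0), BLip f →
    (∀ i, LipschitzWith (K i) (π i)) → |T f π| ≤ (∏ i, (K i : ℝ)) * ∫ x, |f x| ∂ν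

/-- metric currents of Ambrosio and Kirchheim: multilinear, continuous, local, of finite mass -/
structure IsCurrent {n : ℕ} {E : Type} [PseudoMetricSpace E] [MeasurableSpace E]
    (T : Fnl n E) : Prop where
  add_left : ∀ f g π, BLip f → BLip g → (∀ i, Lip (π i)) → T (f + g) π = T f π + T g π
  smul_left : ∀ (c : ℝ) f π, BLip f → (∀ i, Lip (π i)) → T (c • f) π = c * T f π
  add_right : ∀ f π i a b, BLip f → (∀ i, Lip (π i)) → Lip a → Lip b →
    T f (Function.update π i (a + b)) = T f (Function.update π i a) + T f (Function.update π i b)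
  smul_right : ∀ (c : ℝ) f π i a, BLip f → (∀ i, Lip (π i)) → Lip a →
    T f (Function.update π i (c • a)) = c * T f (Function.update π i a)
  continuity : ∀ f π (ρ : ℕ → Fin n → E → ℝ) (C : ℝ≥0), BLip f → (∀ i, Lip (π i)) →
    (∀ k i, LipschitzWith C (ρ k i)) →
    (∀ i x, Tendsto (fun k => ρ k i x) atTop (𝓝 (π i x))) →
    Tendsto (fun k => T f (ρ k)) atTop (𝓝 (T f π))
  locality : ∀ f π i, BLip f → (∀ i, Lip (π i)) →
    (∃ U : Set E, IsOpen U ∧ {x | f x ≠ 0} ⊆ U ∧ ∃ c, ∀ x ∈ U, π i x = c) → T f π = 0
  finite_mass : ∃ ν, Controls T ν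

/-- the mass measure `‖T‖`: the least of the finite Borel measures which control `T` -/
noncomputable def massMeasure {n : ℕ} {E : Type} [PseudoMetricSpace E] [MeasurableSpace E]
    (T : Fnl n E) : Measure E := sInf {ν | Controls T ν}

/-- the boundary `∂T(f, π₁, …, πₙ) = T(1, f, π₁, …, πₙ)` -/
def boundary {n : ℕ} {E : Type} (T : Fnl (n + 1) E) : Fnl n E :=
  fun f π => T (fun _ => 1) (Fin.cons f π)

/-- the push-forward `φ_# T (f, π) = T (f ∘ φ, π ∘ φ)` -/
def push {n : ℕ} {E F : Type} (φ : E → F) (T : Fnl n E) : Fnl n F :=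
  fun f π => T (f ∘ φ) (fun i => π i ∘ φ)

/-- the Jacobian determinant of `g = (g₁, …, gₙ)` at `u` (derivatives within `A`) -/
noncomputable def jacW {n : ℕ} (A : Set (Rn n)) (g : Fin n → Rn n → ℝ) (u : Rn n) : ℝ :=
  (Matrix.of fun i j => fderivWithin ℝ (g i) A u (Pi.single j 1)).det

/-- `φ` is bi-Lipschitz on `A` -/
def BiLipOn {X E : Type} [PseudoMetricSpace X] [PseudoMetricSpace E] (φ : X → E) (A : Set X) :
    Prop :=
  ∃ K : ℝ≥0, ∀ u ∈ A, ∀ v ∈ A, dist (φ u) (φ v) ≤ K * dist u v ∧ dist u v ≤ K * dist (φ u) (φ v)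

/-- the seminorm `N` on `ℝᵏ` is the metric derivative at `u` of the map `φ` on the set `A`:
`d(φ(w), φ(u)) = N(w - u) + o(|w - u|)` for `w → u`, `w ∈ A` -/
def IsMD {k : ℕ} {E : Type} [PseudoMetricSpace E] (φ : Rn k → E) (A : Set (Rn k)) (u : Rn k)
    (N : Seminorm ℝ (Rn k)) : Prop :=
  (fun w => dist (φ w) (φ u) - N (w - u)) =o[𝓝[A] u] (fun w => w - u)

open Classical in
/-- the metric derivative of `φ` on `A` at `u` (Kirchheim: it exists for almost every `u ∈ A` if `φ`
is Lipschitz on the Borel set `A`); it represents the approximate tangent norm at `φ(u)` -/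
noncomputable def metricDeriv {k : ℕ} {E : Type} [PseudoMetricSpace E] (φ : Rn k → E)
    (A : Set (Rn k)) (u : Rn k) : Seminorm ℝ (Rn k) :=
  if h : ∃ N, IsMD φ A u N then h.choose else 0

/-- the volume `ωₖ` of the Euclidean unit ball -/
noncomputable def omega (k : ℕ) : ℝ≥0∞ := volume (Metric.ball (0 : EuclideanSpace ℝ (Fin k)) 1)

/-- the density, with respect to the Lebesgue measure of `ℝᵏ`, of the Haar measure which gives
the unit ball of the norm `N` the volume `ωₖ` (Busemann) -/
noncomputable def busemann {k : ℕ} (N : Seminorm ℝ (Rn k)) : ℝ≥0∞ :=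
  omega k / volume {w : Rn k | N w ≤ 1}

/-- the polar `B°` of the unit ball `B` of `N` -/
def polar {k : ℕ} (N : Seminorm ℝ (Rn k)) : Set (Rn k) :=
  {y : Rn k | ∀ w : Rn k, N w ≤ 1 → |∑ i, y i * w i| ≤ 1}

/-- the density, with respect to the Lebesgue measure of `ℝᵏ`, of the Haar measure which gives
the unit ball `B` of the norm `N` the volume `vol(B) vol(B°) / ωₖ` (Holmes and Thompson) -/
noncomputable def holmesThompson {k : ℕ} (N : Seminorm ℝ (Rn k)) : ℝ≥0∞ :=
  volume (polar N) / omega k

/-- a family of parametrised pieces with multiplicities: index set, domains, parametrisations,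
multiplicities -/
structure Pieces (k : ℕ) (E : Type) where
  /-- the index set -/
  ι : Type
  /-- the domains -/
  A : ι → Set (Rn k)
  /-- the parametrisations -/
  φ : ι → Rn k → E
  /-- the multiplicities -/
  θ : ι → Rn k → ℤ

/-- `∫ |θ| dμ`, where `μ` is the measure induced by the tangent norms through the density `J`:
`∑ᵢ ∫_{Aᵢ} |θᵢ(u)| J(md φᵢ(u)) du` -/
noncomputable def Pieces.mass {k : ℕ} {E : Type} [PseudoMetricSpace E]
    (J : Seminorm ℝ (Rn k) → ℝ≥0∞) (D : Pieces k E) : ℝ≥0∞ :=
  ∑' i, ∫⁻ u in D.A i, ‖(D.θ i u : ℝ)‖ₑ * J (metricDeriv (D.φ i) (D.A i) u)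

/-- `D` represents `T` as an integer rectifiable current: countably many bi-Lipschitz
parametrisations of Borel sets with pairwise disjoint images, Borel integer multiplicities,
integrable with respect to the Hausdorff measure, and
`T(f, π) = ∑ᵢ ∫_{Aᵢ} θᵢ f(φᵢ) det D(π ∘ φᵢ)` -/
structure Pieces.Represents {k : ℕ} {E : Type} [PseudoMetricSpace E] (D : Pieces k E)
    (T : Fnl k E) : Prop where
  countable : Countable D.ι
  measurableSet : ∀ i, MeasurableSet (D.A i)
  measurable : ∀ i, Measurable (D.θ i)
  biLip : ∀ i, BiLipOn (D.φ i) (D.A i)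
  disjoint : Pairwise fun i j => Disjoint (D.φ i '' D.A i) (D.φ j '' D.A j)
  finite : D.mass busemann < ⊤
  eq : ∀ (f : E → ℝ) (π : Fin k → E → ℝ), BLip f → (∀ j, Lip (π j)) →
    HasSum (fun i => ∫ u in D.A i, (D.θ i u : ℝ) * f (D.φ i u) *
      jacW (D.A i) (fun j => π j ∘ D.φ i) u) (T f π)

/-- integer rectifiable currents -/
def IsIntegerRectifiable {k : ℕ} {E : Type} [PseudoMetricSpace E] (T : Fnl k E) : Prop :=
  ∃ D : Pieces k E, D.Represents T

/-- the Finsler mass of an integer rectifiable current: `∑ᵢ ∫_{Aᵢ} |θᵢ| J(md φᵢ)` for any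
representation (the value does not depend on the representation, see `finslerMass_eq_busemann` and
`finslerMass_eq_holmesThompson`); it is `∞` for functionals which are not integer rectifiable -/
noncomputable def finslerMass {k : ℕ} {E : Type} [PseudoMetricSpace E]
    (J : Seminorm ℝ (Rn k) → ℝ≥0∞) (T : Fnl k E) : ℝ≥0∞ :=
  ⨅ (D : Pieces k E) (_ : D.Represents T), D.mass J

/-- integral currents (Ambrosio and Kirchheim): integer rectifiable metric currents whose boundary
has finite mass -/
structure IsIntegral {n : ℕ} {E : Type} [PseudoMetricSpace E] [MeasurableSpace E]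
    (T : Fnl (n + 1) E) : Prop where
  current : IsCurrent T
  rectifiable : IsIntegerRectifiable T
  boundary_finite : ∃ ν, Controls (boundary T) ν

/-- the lower density `liminf_{r → 0} ‖T‖(B(x, r)) / rⁿ` -/
noncomputable def lowerDensity {n : ℕ} {E : Type} [PseudoMetricSpace E] [MeasurableSpace E]
    (T : Fnl n E) (x : E) : ℝ≥0∞ :=
  liminf (fun r : ℝ => massMeasure T (Metric.closedBall x r) / ENNReal.ofReal (r ^ n)) (𝓝[>] 0)

/-- the canonical set of `T`: the points of positive lower density of `‖T‖` -/
def canonicalSet {n : ℕ} {E : Type} [PseudoMetricSpace E] [MeasurableSpace E]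
    (T : Fnl n E) : Set E := {x | 0 < lowerDensity T x}

/-- the support of `T`: the support of the measure `‖T‖` -/
def support {n : ℕ} {E : Type} [PseudoMetricSpace E] [MeasurableSpace E]
    (T : Fnl n E) : Set E := {x | ∀ r : ℝ, 0 < r → 0 < massMeasure T (Metric.ball x r)}

/-- `(X, T)` is an integral current space: `T` is an integral current on the completion of `X`, and
`X` is the set of points of positive lower density of `‖T‖` (Sormani and Wenger), or the support
of `T` -/
def IsIntegralCurrentSpace {n : ℕ} (X : Type) [MetricSpace X]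
    [MeasurableSpace (UniformSpace.Completion X)]
    (T : Fnl (n + 1) (UniformSpace.Completion X)) : Prop :=
  IsIntegral T ∧
    (range ((↑) : X → UniformSpace.Completion X) = canonicalSet T ∨
      range ((↑) : X → UniformSpace.Completion X) = support T)

open Classical in
/-- a function on `Y` in the coordinates `e`, extended by `0` -/
noncomputable def exte {m : ℕ} {Y : Type} (e : Y → Rn m) (q : Y → ℝ) (u : Rn m) : ℝ :=
  if h : ∃ y, e y = u then q h.choose else 0

/-- the current of integration over `Y` in the coordinates `e`: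
`(g, π) ↦ ∫_{e(Y)} g det D(π)` -/
noncomputable def bodyCurrent {m : ℕ} {Y : Type} (e : Y → Rn m) : Fnl m Y := fun g π =>
  ∫ u in range e, exte e g u * jacW (range e) (fun j => exte e (π j)) u

/-- Lipschitz-volume rigidity, with respect to the Finsler mass with density `J`, of the subset `K`
(with the induced metric) of the normed space `V` with the basis `b`, among integral current
spaces. The current of `K` is the current of integration in the coordinates of `b`. For a current
on the completion of `X`, the map `f : X → K` is extended to the completion. -/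
def IsRigid (J : ∀ k : ℕ, Seminorm ℝ (Rn k) → ℝ≥0∞) {n : ℕ} {V : Type} [NormedAddCommGroup V]
    [NormedSpace ℝ V] (b : Module.Basis (Fin (n + 1)) ℝ V) (K : Set V) : Prop :=
  ∀ (X : Type) (_ : MetricSpace X) (_ : MeasurableSpace (UniformSpace.Completion X))
    (_ : BorelSpace (UniformSpace.Completion X)) (TX : Fnl (n + 1) (UniformSpace.Completion X))
    (f : X → K), IsIntegralCurrentSpace X TX → LipschitzWith 1 f →
    Same (push (UniformSpace.Completion.extension f) TX)
      (bodyCurrent fun y : K => b.equivFun (y : V)) →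
    finslerMass (J n) (boundary TX) ≤
      finslerMass (J n) (boundary (bodyCurrent fun y : K => b.equivFun (y : V))) →
    finslerMass (J (n + 1)) TX ≤
      finslerMass (J (n + 1)) (bodyCurrent fun y : K => b.equivFun (y : V)) →
    Isometry f ∧ Function.Surjective f

end Pool.Agent.W674.LVG
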