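import Pool.Agent.W674.LVG.BRep
import Pool.Agent.W674.LVF.Retr
import Pool.Agent.W338.LVFbus
import Pool.Agent.W338.LVFht
import Pool.Agent.W338.LVFcmp
import Pool.Agent.W346.LVFfac
import Pool.Agent.W346.LVFpieces
import Pool.Agent.W505.LVF.LVFnull
import Pool.Agent.W505.LVF.LVFarea
import Pool.Agent.W505.LVF.LVFvol
import Pool.Agent.W505.LVF.LVFdens
import Pool.Agent.W571.LVF.Ibp
import Pool.Agent.W571.LVF.Mol
import Pool.Agent.W63.LVF.DisjD
import Pool.Agent.W63.LVF.Kir
import Pool.Agent.W826.LVFkdir
import Pool.Agent.W22.LVFstokes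

/-! # Rigidity of convex bodies in normed spaces -/

set_option autoImplicit false
set_option linter.unusedSectionVars false

open MeasureTheory Set Filter Topology Asymptotics
open scoped ENNReal NNReal

namespace Pool.Agent.W674.LVG

open Pool.Agent.W674 UniformSpace

theorem h_dens : LVF.S_dens := Pool.Agent.W505.LVF.Dens.main

theorem h_kir : LVF.S_kir := Pool.Agent.W63.LVFkir.main Pool.Agent.W826.LVFkdir.main

theorem h_stokes : LVF.S_stokes := Pool.Agent.W22.LVFstokes.main

theorem ing : Ing where
  dens := h_dens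
  null := Pool.Agent.W505.LVF.Null.main
  bus := Pool.Agent.W338.LVFbus.main
  cmp := Pool.Agent.W338.LVFcmp.main
  ibp := Pool.Agent.W571.LVF.Ibp.ibp Pool.Agent.W505.LVF.Area.main
  mol := Pool.Agent.W571.LVF.Mol.main
  fac := Pool.Agent.W346.LVFfac.main
  pieces := Pool.Agent.W346.LVFpieces.main
  disj := Pool.Agent.W63.LVFdisj.main h_dens Pool.Agent.W505.LVF.Null.main
    Pool.Agent.W505.LVF.Area.main

/-- the Finsler mass is computed by every representation (Busemann density) -/
theorem finslerMass_eq_busemann {k : ℕ} {E : Type} [MetricSpace E] [MeasurableSpace E]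
    [BorelSpace E] {T : Fnl k E} {D : Pieces k E} (h : D.Represents T) :
    finslerMass busemann T = D.mass busemann := by
  obtain ⟨P, hP, hc⟩ := exists_param h_kir h_dens h
  rw [finslerMass_eq' h_kir h_dens, ← hc]
  exact (finslerMass_eq_cost ing.dens ing.null ing.bus (ing.bus k) ing.cmp hP).1

/-- the Finsler mass is computed by every representation (Holmes-Thompson density) -/
theorem finslerMass_eq_holmesThompson {k : ℕ} {E : Type} [MetricSpace E] [MeasurableSpace E]
    [BorelSpace E] {T : Fnl k E} {D : Pieces k E} (h : D.Represents T) :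
    finslerMass holmesThompson T = D.mass holmesThompson := by
  obtain ⟨P, hP, hc⟩ := exists_param h_kir h_dens h
  rw [finslerMass_eq' h_kir h_dens, ← hc]
  exact (finslerMass_eq_cost ing.dens ing.null ing.bus (Pool.Agent.W338.LVFht.main k) ing.cmp hP).1

section

variable {n : ℕ} {V : Type} [NormedAddCommGroup V] [NormedSpace ℝ V]

theorem isBody (b : Module.Basis (Fin (n + 1)) ℝ V) {K : Set V} (hK : IsCompact K)
    (hc : Convex ℝ K) (hi : (interior K).Nonempty) :
    LVF.IsBody ((normSeminorm ℝ V).comp (b.equivFun.symm : Rn (n + 1) →ₗ[ℝ] V))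
      (fun y : K => b.equivFun (y : V)) := by
  have hfd : FiniteDimensional ℝ V := b.finiteDimensional_of_finite
  have hrange : range (fun y : K => b.equivFun (y : V)) = b.equivFun '' K := by
    ext u
    constructor
    · rintro ⟨y, rfl⟩
      exact ⟨y, y.2, rfl⟩
    · rintro ⟨y, hy, rfl⟩
      exact ⟨⟨y, hy⟩, rfl⟩
  set L : V ≃L[ℝ] Rn (n + 1) := b.equivFun.toContinuousLinearEquiv with hL
  have hLK : b.equivFun '' K = L '' K := rfl
  refine ⟨?_, ?_, ?_, ?_, ?_⟩
  · intro w hw
    have h1 : ‖b.equivFun.symm w‖ = 0 := hw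
    have h2 := norm_eq_zero.1 h1
    exact (LinearEquiv.map_eq_zero_iff _).1 h2
  · intro y y'
    show dist (y : V) y' = ‖b.equivFun.symm (b.equivFun (y : V) - b.equivFun (y' : V))‖
    rw [← map_sub, LinearEquiv.symm_apply_apply, dist_eq_norm]
  · rw [hrange, hLK]
    exact hK.image L.continuous
  · rw [hrange]
    exact hc.linear_image (b.equivFun : V →ₗ[ℝ] Rn (n + 1))
  · rw [hrange, hLK]
    have h1 : L '' interior K = interior (L '' K) := L.toHomeomorph.image_interior K
    rw [← h1]
    exact hi.image L

theorem rigid {J : ∀ k : ℕ, Seminorm ℝ (Rn k) → ℝ≥0∞} (hJ : ∀ k, LVF.VolFun k (J k))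
    (b : Module.Basis (Fin (n + 1)) ℝ V) {K : Set V} (hK : IsCompact K)
    (hc : Convex ℝ K) (hi : (interior K).Nonempty) : IsRigid J b K := by
  intro X _ _ _ TX f hX hf hpush hbd hm
  let _ : MeasurableSpace K := borel K
  have _ : BorelSpace K := ⟨rfl⟩
  have _ : CompactSpace K := isCompact_iff_compactSpace.1 hK
  have hbody := isBody b hK hc hi
  set F : Completion X → K := Completion.extension f with hF
  have hFl : LipschitzWith 1 F := hf.completion_extension
  have hFc : ∀ x : X, F x = f x := fun x => Completion.extension_coe hf.uniformContinuous x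
  obtain ⟨hint, hset⟩ := hX
  obtain ⟨D0, hD0⟩ := hint.rectifiable
  obtain ⟨D, hD, -⟩ := exists_param h_kir h_dens hD0
  have hsupp0 : ∀ x ∈ range ((↑) : X → Completion X), LVF.InSupp TX x := by
    intro x hx
    refine inSupp_of_support hint.current ?_
    rcases hset with h | h
    · rw [h] at hx
      exact canonical_subset hx
    · rw [h] at hx
      exact hx
  have hdense : Dense (range ((↑) : X → Completion X)) := Completion.denseRange_coe
  have hsupp := inSupp_closure hsupp0 hdense
  rw [finslerMass_eq' h_kir h_dens, finslerMass_eq' h_kir h_dens] at hbd hm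
  -- the boundary of the current is integer rectifiable, since its mass is finite
  obtain ⟨P, hP⟩ := body_boundary_rep h_stokes LVF.S_retr_proof ing hbody
  have hP2 := finslerMass_eq_cost ing.dens ing.null ing.bus (hJ n) ing.cmp hP
  have hlt : LVF.finslerMass (J n) (boundary TX) < ⊤ := by
    refine lt_of_le_of_lt hbd ?_
    show LVF.finslerMass (J n) (LVR.boundary (LVF.bodyCurrent _)) < ⊤
    rw [hP2.1]
    exact hP2.2
  obtain ⟨Db, hDb⟩ : ∃ Db : LVF.Param n (Completion X), Db.IsRep (boundary TX) := by
    obtain ⟨Db, h1⟩ := iInf_lt_iff.1 hlt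
    obtain ⟨h2, -⟩ := iInf_lt_iff.1 h1
    exact ⟨Db, h2⟩
  obtain ⟨-, hiso, hsurj⟩ := main_complete ing hJ hbody hFl hD hDb hsupp hpush hbd hm
  have huniv : ∀ x : Completion X, x ∈ range ((↑) : X → Completion X) := by
    intro x
    rcases hset with h | h
    · rw [h]
      exact density_pos Pool.Agent.W505.LVF.Vol.main h_dens hbody hpush hiso hsurj x
    · have h1 : IsClosed (range ((↑) : X → Completion X)) := by
        rw [h]
        exact isClosed_support
      have h2 : closure (range ((↑) : X → Completion X)) = univ := hdense.closure_eq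
      rw [h1.closure_eq] at h2
      rw [h2]
      exact mem_univ x
  constructor
  · have h1 : f = F ∘ ((↑) : X → Completion X) := funext fun x => (hFc x).symm
    rw [h1]
    exact hiso.comp Completion.coe_isometry
  · intro y
    obtain ⟨x, hx⟩ := hsurj y
    obtain ⟨x', rfl⟩ := huniv x
    exact ⟨x', by rw [← hFc]; exact hx⟩

end

end Pool.Agent.W674.LVG
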