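import Pool.Agent.W674.LVG.Bridge

/-! # The rigidity theorem for complete spaces -/

set_option autoImplicit false
set_option linter.unusedSectionVars false

open MeasureTheory Set Filter Topology Asymptotics
open scoped ENNReal NNReal

namespace Pool.Agent.W674.LVG

open Pool.Agent.W674

theorem bodyCurrent_eq {m : ℕ} {Y : Type} (e : Y → Rn m) : bodyCurrent e = LVF.bodyCurrent e := rfl

section

variable {m : ℕ} {Y : Type} [MetricSpace Y] {p : Seminorm ℝ (Rn m)} {e : Y → Rn m}

/-- the identity representation of the body -/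
theorem body_rep (h : LVF.IsBody p e) (hb : LVF.S_bus) :
    ∃ P : LVF.Param m Y, P.IsRep (LVF.bodyCurrent e) ∧ ∀ J, P.cost J = J p * volume (range e) := by
  have hne : Nonempty Y := by
    obtain ⟨u, hu⟩ := h.interior
    obtain ⟨y, -⟩ := interior_subset hu
    exact ⟨y⟩
  set g : Rn m → Y := Function.invFun e with hg
  have hge : ∀ y, g (e y) = y := Function.leftInverse_invFun h.inj
  have heg : ∀ u ∈ range e, e (g u) = u := by
    rintro _ ⟨y, rfl⟩
    rw [hge]
  have hdist : ∀ u ∈ range e, ∀ v ∈ range e, dist (g u) (g v) = p (u - v) := by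
    intro u hu v hv
    rw [h.dist_eq, heg u hu, heg v hv]
  obtain ⟨C, hC, hCb⟩ := LVF.seminorm_bound p
  obtain ⟨C', hC', hCb'⟩ := LVF.nrm_lower h.nrm
  set P : LVF.Param m Y := ⟨Unit, fun _ => range e, fun _ => g, fun _ _ => 1, fun _ _ => p⟩ with hP
  have hbi : LVR.BiLipOn g (range e) := by
    refine ⟨(max C C').toNNReal, fun u hu v hv => ?_⟩
    have hmax : 0 ≤ max C C' := hC.le.trans (le_max_left _ _)
    rw [Real.coe_toNNReal _ hmax, hdist u hu v hv, dist_eq_norm]
    constructor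
    · exact (hCb _).trans (mul_le_mul_of_nonneg_right (le_max_left _ _) (norm_nonneg _))
    · exact (hCb' _).trans (mul_le_mul_of_nonneg_right (le_max_right _ _) (apply_nonneg p _))
  have hcost : ∀ J, P.cost J = J p * volume (range e) := by
    intro J
    show ∑' _ : Unit, ∫⁻ _ in range e, ‖((1 : ℤ) : ℝ)‖ₑ * J p = _
    rw [tsum_fintype]
    simp [mul_comm]
  refine ⟨P, ⟨⟨inferInstanceAs (Countable Unit), fun _ => h.measurableSet, fun _ => ?_,
    fun _ => measurable_const, fun _ w => (measurable_const : Measurable fun _ : Rn m => p w),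
    fun _ => ?_⟩, fun _ => hbi, ?_, ?_, ?_⟩, hcost⟩
  · obtain ⟨K, hK⟩ := hbi
    exact ⟨K, LipschitzOnWith.of_dist_le_mul fun u hu v hv => (hK u hu v hv).1⟩
  · filter_upwards [ae_restrict_mem h.measurableSet] with u hu
    show LVF.IsMD g (range e) u p
    unfold LVF.IsMD
    refine Asymptotics.IsLittleO.congr' (Asymptotics.isLittleO_zero _ _) ?_ EventuallyEq.rfl
    filter_upwards [self_mem_nhdsWithin] with w hw
    rw [hdist w hw u hu, sub_self]
  · intro i j hij
    exact absurd (Subsingleton.elim i j) hij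
  · intro f π hf hπ
    have h1 : LVF.bodyCurrent e f π = ∫ u in range e, ((1 : ℤ) : ℝ) * f (g u) *
        LVR.jacW (range e) (fun j => π j ∘ g) u := by
      unfold LVF.bodyCurrent
      refine setIntegral_congr_fun h.measurableSet fun u hu => ?_
      have hext : ∀ q : Y → ℝ, ∀ v ∈ range e, LVF.exte e q v = q (g v) := by
        rintro q _ ⟨y, rfl⟩
        rw [h.exte_apply, hge]
      rw [hext f u hu, Int.cast_one, one_mul]
      congr 1
      unfold LVR.jacW
      congr 1
      ext a b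
      simp only [Matrix.of_apply]
      rw [fderivWithin_congr (hext (π a)) (hext (π a) u hu)]
      rfl
    rw [h1]
    exact hasSum_unique (f := fun _ : Unit => ∫ u in range e, ((1 : ℤ) : ℝ) * f (g u) *
        LVR.jacW (range e) (fun j => π j ∘ g) u)
  · rw [hcost]
    exact ENNReal.mul_lt_top ((hb m).lt_top p) h.volume_lt_top

end

/-- the ingredients -/
structure Ing : Prop where
  dens : LVF.S_dens
  null : LVF.S_null
  bus : LVF.S_bus
  cmp : LVF.S_cmp
  ibp : LVF.S_ibp
  mol : LVF.S_mol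
  fac : LVF.S_fac
  pieces : LVF.S_pieces
  disj : LVF.S_disj

variable {n : ℕ} {X Y : Type} [MetricSpace X] [MeasurableSpace X] [BorelSpace X]
  [MetricSpace Y] [MeasurableSpace Y] [BorelSpace Y]

/-- rigidity, for complete spaces -/
theorem main_complete [CompleteSpace X] (I : Ing) {J : ∀ k : ℕ, Seminorm ℝ (Rn k) → ℝ≥0∞}
    (hJ : ∀ k, LVF.VolFun k (J k)) {p : Seminorm ℝ (Rn (n + 1))} {e : Y → Rn (n + 1)}
    (h : LVF.IsBody p e) {TX : Fnl (n + 1) X} {f : X → Y} (hf : LipschitzWith 1 f)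
    {D : LVF.Param (n + 1) X} (hD : D.IsRep TX) {Db : LVF.Param n X}
    (hDb : Db.IsRep (boundary TX)) (hsupp : ∀ x, LVF.InSupp TX x)
    (hpush : Same (push f TX) (bodyCurrent e))
    (hbd : LVF.finslerMass (J n) (boundary TX) ≤
      LVF.finslerMass (J n) (boundary (bodyCurrent e)))
    (hm : LVF.finslerMass (J (n + 1)) TX ≤ LVF.finslerMass (J (n + 1)) (bodyCurrent e)) :
    (∃ Q, LVF.Setup p e f TX (J (n + 1)) D Q) ∧ Isometry f ∧ Function.Surjective f := by
  obtain ⟨Q, hQ, hQe⟩ := LVF.exists_Psi h hf hD.isLip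
  obtain ⟨Qb, hQb, hQbe⟩ := LVF.exists_Psi h hf hDb.isLip
  have c1 := finslerMass_eq_cost I.dens I.null I.bus (hJ (n + 1)) I.cmp hD
  have c2 := finslerMass_eq_cost I.dens I.null I.bus (hJ n) I.cmp hDb
  have c3 := finslerMass_eq_cost I.dens I.null I.bus (I.bus n) I.cmp hDb
  have hcost : D.cost (J (n + 1)) ≤ J (n + 1) p * volume (range e) := by
    obtain ⟨P, hP, hPc⟩ := body_rep h I.bus
    rw [← c1.1, ← hPc]
    exact hm.trans (iInf_le_of_le P (iInf_le_of_le hP le_rfl))
  have s : LVF.Setup p e f TX (J (n + 1)) D Q := by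
    refine ⟨h, I.dens, hf, hJ _, hD.isLip, hD.biLip, hD.represents, c1.2, hcost, ?_, hQ, hQe⟩
    intro g π hg hπ
    exact hpush g π hg hπ
  -- the boundary
  have hS : ∀ (g : Y → ℝ) (π : Fin n → Y → ℝ), LVR.BLip g → (∀ j, LVR.Lip (π j)) →
      boundary TX (fun x => g (f x)) (fun j x => π j (f x)) =
        LVR.boundary (LVF.bodyCurrent e) g π := by
    intro g π hg hπ
    have h1 := hpush (fun _ => 1) (Fin.cons g π)
      ⟨⟨0, LipschitzWith.const _⟩, 1, fun _ => by simp⟩ (LVF.lip_cons hg.1 hπ)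
    have h2 : (fun i => (Fin.cons g π : Fin (n + 1) → Y → ℝ) i ∘ f) =
        (Fin.cons (fun x => g (f x)) (fun j x => π j (f x)) : Fin (n + 1) → X → ℝ) := by
      ext i
      refine Fin.cases ?_ (fun j => ?_) i
      · rfl
      · rfl
    unfold push at h1
    rw [h2] at h1
    exact h1
  have hrepR := LVF.pushR_represents h I.dens I.ibp hf hDb.isLip (I.bus n) c3.2
    (S := boundary TX) hDb.represents hS hQb hQbe
  have hle : Db.cost (J n) ≤ (Db.pushR f p e Qb).cost (J n) := by
    have hlipR := LVF.pushR_isLip h hf hDb.isLip hQb hQbe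
    have hbusR : (Db.pushR f p e Qb).cost LVF.busemann < ⊤ := by
      refine lt_of_le_of_lt (LVF.pushR_cost h hf hDb.isLip hQb hQbe I.dens (I.bus n)) ?_
      refine lt_of_le_of_lt ?_ c3.2
      rw [LVF.cost_om]
      refine lintegral_mono fun z => ?_
      by_cases hz : e (f (Db.φ z.1 z.2)) ∈ (interior (range e))ᶜ
      · rw [indicator_of_mem hz, Pi.one_apply, one_mul]
      · rw [indicator_of_notMem hz, zero_mul]
        exact zero_le
    obtain ⟨D1, l1, b1, r1, a1, a2⟩ := I.pieces n (n + 1) p Y inferInstance e (J n)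
      (Db.pushR f p e Qb) _ h.nrm h.dist_eq (hJ n) (I.bus n) hlipR hbusR hrepR
    obtain ⟨D2, h2, a3⟩ := I.disj n Y inferInstance inferInstance inferInstance (J n) D1 _
      (hJ n) (I.bus n) l1 b1 (lt_of_le_of_lt a2 hbusR) r1
    rw [← c2.1]
    exact hbd.trans ((iInf_le_of_le D2 (iInf_le_of_le h2 le_rfl)).trans (a3.trans a1))
  have hθ := LVF.theta_zero h I.dens hf hDb.isLip hDb.biLip (hJ n) c2.2 hQb hQbe hle
  have hnb : LVF.NoBd e f TX := by
    intro q π hq hq0 hπ
    exact LVF.bv I.dens hDb.isLip (hJ n) c2.2 hDb.represents hθ hq hq0 hπ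
  have hiso : Isometry f := by
    refine Isometry.of_dist_eq fun x x' => le_antisymm ?_ (s.core hnb I.fac I.mol hsupp x x')
    have := hf.dist_le_mul x x'
    rwa [NNReal.coe_one, one_mul] at this
  exact ⟨⟨Q, s⟩, hiso, s.surj hiso⟩

end Pool.Agent.W674.LVG
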