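import Pool.Agent.W674.LVG.Main

/-! # Supports and lower densities -/

set_option autoImplicit false
set_option linter.unusedSectionVars false

open MeasureTheory Set Filter Topology Asymptotics
open scoped ENNReal NNReal

namespace Pool.Agent.W674.LVG

open Pool.Agent.W674

/-- cut-off functions of balls -/
noncomputable def chi {E : Type} [PseudoMetricSpace E] (x : E) (r : ℝ) (j : ℕ) (y : E) : ℝ :=
  min 1 ((j : ℝ) * max 0 (r - dist y x))

theorem chi_lip {E : Type} [PseudoMetricSpace E] (x : E) (r : ℝ) (j : ℕ) :
    LipschitzWith (j : ℝ≥0) (chi x r j) := by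
  have h1 : LipschitzWith 1 fun y : E => max 0 (r - dist y x) := by
    refine LipschitzWith.const_max ?_ 0
    refine LipschitzWith.of_dist_le_mul fun y z => ?_
    rw [Real.dist_eq]
    have : r - dist y x - (r - dist z x) = dist z x - dist y x := by ring
    rw [this, NNReal.coe_one, one_mul, dist_comm y z]
    exact abs_dist_sub_le z y x
  have h2 : LipschitzWith (j : ℝ≥0) fun y : E => (j : ℝ) * max 0 (r - dist y x) := by
    refine LipschitzWith.of_dist_le_mul fun y z => ?_
    have h3 := h1.dist_le_mul y z
    rw [Real.dist_eq] at h3 ⊢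
    rw [← mul_sub, abs_mul, abs_of_nonneg (by positivity)]
    rw [NNReal.coe_one, one_mul] at h3
    have : ((j : ℝ≥0) : ℝ) = (j : ℝ) := by simp
    rw [this]
    gcongr
  exact h2.const_min 1

theorem chi_nonneg {E : Type} [PseudoMetricSpace E] (x : E) (r : ℝ) (j : ℕ) (y : E) :
    0 ≤ chi x r j y := by unfold chi; positivity

theorem chi_le {E : Type} [PseudoMetricSpace E] (x : E) (r : ℝ) (j : ℕ) (y : E) :
    chi x r j y ≤ 1 := min_le_left _ _

theorem chi_out {E : Type} [PseudoMetricSpace E] (x : E) (r : ℝ) (j : ℕ) (y : E)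
    (h : ¬ dist y x < r) : chi x r j y = 0 := by
  unfold chi
  rw [max_eq_left (by linarith), mul_zero]
  simp

section

variable {n : ℕ} {E : Type} [MetricSpace E] [MeasurableSpace E] [BorelSpace E] {T : Fnl n E}

/-- the mass measure vanishes on balls over which the functional vanishes -/
theorem mass_ball_zero (hT : IsCurrent T) {x : E} {r : ℝ}
    (hcon : ∀ (f : E → ℝ) (π : Fin n → E → ℝ), BLip f → (∀ i, Lip (π i)) →
      (∀ y, f y ≠ 0 → dist y x < r) → T f π = 0) : massMeasure T (Metric.ball x r) = 0 := by
  obtain ⟨ν, hν, hctl⟩ := hT.finite_mass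
  have hν' : Controls T (ν.restrict (Metric.ball x r)ᶜ) := by
    refine ⟨inferInstance, fun f π K hf hπ => ?_⟩
    have hπ' : ∀ i, Lip (π i) := fun i => ⟨K i, hπ i⟩
    obtain ⟨C, hC⟩ := hf.2
    have hfc : Continuous f := hf.1.choose_spec.continuous
    have hchi : ∀ j, BLip (chi x r j) := fun j => ⟨⟨_, chi_lip x r j⟩, 1, fun y => by
        rw [abs_of_nonneg (chi_nonneg x r j y)]; exact chi_le x r j y⟩
    have hchi' : ∀ j, BLip (1 - chi x r j) := by
      intro j
      refine ⟨⟨(j : ℝ≥0), LipschitzWith.of_dist_le_mul fun y z => ?_⟩, 1, fun y => ?_⟩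
      · have h3 := (chi_lip x r j).dist_le_mul y z
        rw [Real.dist_eq] at h3 ⊢
        have : (1 - chi x r j) y - (1 - chi x r j) z = -(chi x r j y - chi x r j z) := by
          simp only [Pi.sub_apply, Pi.one_apply]; ring
        rw [this, abs_neg]; exact h3
      · have h1 := chi_nonneg x r j y
        have h2 := chi_le x r j y
        simp only [Pi.sub_apply, Pi.one_apply]
        rw [abs_of_nonneg (by linarith)]; linarith
    have hstep : ∀ j : ℕ, |T f π| ≤ (∏ i, (K i : ℝ)) * ∫ y, |(f * (1 - chi x r j)) y| ∂ν := by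
      intro j
      have e1 : f = f * chi x r j + f * (1 - chi x r j) := by ring
      have e2 : T f π = T (f * chi x r j) π + T (f * (1 - chi x r j)) π := by
        conv_lhs => rw [e1]
        exact hT.add_left _ _ _ (LVF.blip_mul hf (hchi j)) (LVF.blip_mul hf (hchi' j)) hπ'
      have e3 : T (f * chi x r j) π = 0 := by
        apply hcon _ _ (LVF.blip_mul hf (hchi j)) hπ'
        intro y hy
        by_contra hyr
        apply hy
        rw [chi_out x r j y hyr, mul_zero]
      rw [e2, e3, zero_add]
      exact hctl _ _ K (LVF.blip_mul hf (hchi' j)) hπ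
    have hlim : Tendsto (fun j : ℕ => ∫ y, |(f * (1 - chi x r j)) y| ∂ν) atTop
        (𝓝 (∫ y, (Metric.ball x r)ᶜ.indicator (fun y => |f y|) y ∂ν)) := by
      refine tendsto_integral_of_dominated_convergence (fun _ => C) ?_ (integrable_const _) ?_ ?_
      · intro j
        have : Continuous fun y => |(f * (1 - chi x r j)) y| := by
          have h1 : Continuous (chi x r j) := (chi_lip x r j).continuous
          have h2 : Continuous (f * (1 - chi x r j)) := hfc.mul (continuous_const.sub h1)
          exact h2.abs
        exact this.aestronglyMeasurable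
      · intro j
        refine Eventually.of_forall fun y => ?_
        rw [Real.norm_eq_abs, abs_abs, Pi.mul_apply, abs_mul]
        have h1 := chi_nonneg x r j y
        have h2 := chi_le x r j y
        have h3 : |(1 - chi x r j) y| ≤ 1 := by
          simp only [Pi.sub_apply, Pi.one_apply]
          rw [abs_of_nonneg (by linarith)]; linarith
        calc |f y| * |(1 - chi x r j) y| ≤ |f y| * 1 := by gcongr
          _ ≤ C := by rw [mul_one]; exact hC y
      · refine Eventually.of_forall fun y => ?_
        by_cases hy : dist y x < r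
        · have h0 : (Metric.ball x r)ᶜ.indicator (fun y => |f y|) y = 0 := by
            rw [indicator_of_notMem]
            rw [mem_compl_iff, not_not]; exact hy
          rw [h0]
          apply tendsto_const_nhds.congr'
          have hpos : 0 < r - dist y x := by linarith
          filter_upwards [eventually_ge_atTop ⌈(r - dist y x)⁻¹⌉₊] with j hj
          have h1 : (r - dist y x)⁻¹ ≤ j := (Nat.le_ceil _).trans (by exact_mod_cast hj)
          have h2 : 1 ≤ (j : ℝ) * (r - dist y x) := by
            rwa [inv_le_iff_one_le_mul₀ hpos] at h1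
          have h3 : chi x r j y = 1 := by
            unfold chi
            rw [max_eq_right hpos.le, min_eq_left h2]
          rw [Pi.mul_apply, Pi.sub_apply, h3]
          simp
        · have h0 : (Metric.ball x r)ᶜ.indicator (fun y => |f y|) y = |f y| := by
            rw [indicator_of_mem]
            exact hy
          rw [h0]
          apply tendsto_const_nhds.congr
          intro j
          rw [Pi.mul_apply, Pi.sub_apply, chi_out x r j y hy]
          simp
    rw [← integral_indicator Metric.isOpen_ball.measurableSet.compl]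
    exact ge_of_tendsto' (hlim.const_mul _) hstep
  have hle : massMeasure T ≤ ν.restrict (Metric.ball x r)ᶜ := sInf_le hν'
  refine le_antisymm ((hle _).trans ?_) bot_le
  rw [Measure.restrict_apply Metric.isOpen_ball.measurableSet, inter_compl_self, measure_empty]

theorem inSupp_of_support (hT : IsCurrent T) {x : E} (hx : x ∈ support T) : LVF.InSupp T x := by
  intro r hr
  by_contra hcon
  have h0 := mass_ball_zero hT (x := x) (r := r) (fun f π hf hπ hfr => by
    by_contra hne
    exact hcon ⟨f, π, hf, hπ, hfr, hne⟩)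
  exact (hx r hr).ne' h0

theorem canonical_subset : canonicalSet T ⊆ support T := by
  intro x hx r hr
  by_contra hcon
  have h0 : massMeasure T (Metric.ball x r) = 0 := by
    rw [not_lt] at hcon
    exact le_antisymm hcon bot_le
  have hz : lowerDensity T x = 0 := by
    unfold lowerDensity
    have h1 : ∀ᶠ s in 𝓝[>] (0 : ℝ),
        massMeasure T (Metric.closedBall x s) / ENNReal.ofReal (s ^ n) = 0 := by
      filter_upwards [Ioo_mem_nhdsGT hr] with s hs
      have h2 : massMeasure T (Metric.closedBall x s) = 0 :=
        measure_mono_null (Metric.closedBall_subset_ball hs.2) h0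
      rw [h2, ENNReal.zero_div]
    rw [liminf_congr h1]
    exact liminf_const 0
  have hx' : 0 < lowerDensity T x := hx
  rw [hz] at hx'
  exact lt_irrefl _ hx'

theorem isClosed_support : IsClosed (support T) := by
  rw [← isOpen_compl_iff, Metric.isOpen_iff]
  intro x hx
  have hx' : ¬ ∀ r : ℝ, 0 < r → 0 < massMeasure T (Metric.ball x r) := hx
  push Not at hx'
  obtain ⟨r, hr, h0⟩ := hx'
  refine ⟨r, hr, fun y hy hcon => ?_⟩
  rw [Metric.mem_ball] at hy
  have h1 := hcon (r - dist y x) (by linarith)
  have h2 : Metric.ball y (r - dist y x) ⊆ Metric.ball x r := by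
    refine Metric.ball_subset_ball' ?_
    linarith
  exact absurd (h1.trans_le (measure_mono h2)) (not_lt.2 h0)

theorem inSupp_closure {S : Set E} (hS : ∀ x ∈ S, LVF.InSupp T x) (hd : Dense S) (x : E) :
    LVF.InSupp T x := by
  intro r hr
  obtain ⟨y, hy, hyS⟩ := hd.exists_mem_open Metric.isOpen_ball ⟨x, Metric.mem_ball_self (half_pos hr)⟩
  obtain ⟨q, π, h1, h2, h3, h4⟩ := hS y hy (r / 2) (half_pos hr)
  refine ⟨q, π, h1, h2, fun z hz => ?_, h4⟩
  have := h3 z hz
  have h5 := dist_triangle z y x
  rw [Metric.mem_ball] at hyS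
  linarith

end

section

variable {n : ℕ} {X Y : Type} [MetricSpace X] [MeasurableSpace X] [BorelSpace X]
  [MetricSpace Y] [MeasurableSpace Y] [BorelSpace Y]
  {p : Seminorm ℝ (Rn (n + 1))} {e : Y → Rn (n + 1)} {f : X → Y} {TX : Fnl (n + 1) X}

/-- comparison of measures from bounded Lipschitz functions -/
theorem measure_le {E : Type} [MetricSpace E] [MeasurableSpace E] [BorelSpace E]
    {σ ν : Measure E} [IsFiniteMeasure σ] [IsFiniteMeasure ν] {C : ℝ≥0}
    (h : ∀ g : E → ℝ, BLip g → |∫ x, g x ∂σ| ≤ C * ∫ x, |g x| ∂ν) : σ ≤ C • ν := by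
  have key : ∀ F : Set E, IsClosed F → σ F ≤ (C • ν) F := by
    intro F hF
    obtain ⟨g, gl, gb, glim⟩ := LVF.blip_approx hF
    have lim : ∀ κ : Measure E, IsFiniteMeasure κ →
        Tendsto (fun n => ∫ x, g n x ∂κ) atTop (𝓝 (κ.real F)) := by
      intro κ hκ
      have : κ.real F = ∫ x, F.indicator (fun _ => (1 : ℝ)) x ∂κ := by
        rw [integral_indicator hF.measurableSet]
        simp
      rw [this]
      refine tendsto_integral_of_dominated_convergence (fun _ => 1) ?_ ?_ ?_ ?_
      · exact fun n => (LVR.BLip.measurable (gl n)).aestronglyMeasurable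
      · exact integrable_const _
      · exact fun n => Filter.Eventually.of_forall fun x => gb n x
      · exact Filter.Eventually.of_forall glim
    have lim2 : Tendsto (fun n => ∫ x, |g n x| ∂ν) atTop (𝓝 (ν.real F)) := by
      have : ν.real F = ∫ x, |F.indicator (fun _ => (1 : ℝ)) x| ∂ν := by
        have e1 : ∀ x, |F.indicator (fun _ => (1 : ℝ)) x| = F.indicator (fun _ => (1 : ℝ)) x := by
          intro x
          by_cases hx : x ∈ F <;> simp [hx]
        simp_rw [e1]
        rw [integral_indicator hF.measurableSet]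
        simp
      rw [this]
      refine tendsto_integral_of_dominated_convergence (fun _ => 1) ?_ ?_ ?_ ?_
      · exact fun n => (LVR.BLip.measurable (gl n)).abs.aestronglyMeasurable
      · exact integrable_const _
      · exact fun n => Filter.Eventually.of_forall fun x => by
          rw [Real.norm_eq_abs, abs_abs]
          exact gb n x
      · exact Filter.Eventually.of_forall fun x => (glim x).abs
    have h1 : |σ.real F| ≤ C * ν.real F :=
      le_of_tendsto_of_tendsto' (lim σ inferInstance).abs (lim2.const_mul _) fun n => h _ (gl n)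
    rw [abs_of_nonneg measureReal_nonneg] at h1
    have h2 : (C • ν) F = ENNReal.ofReal (C * ν.real F) := by
      rw [ENNReal.ofReal_mul (NNReal.coe_nonneg C), Measure.real,
        ENNReal.ofReal_toReal (measure_ne_top _ _)]
      simp
    rw [h2]
    calc σ F = ENNReal.ofReal (σ.real F) := by
          rw [Measure.real, ENNReal.ofReal_toReal (measure_ne_top _ _)]
      _ ≤ _ := ENNReal.ofReal_le_ofReal h1
  refine Measure.le_iff.2 fun A hA => ?_
  rw [hA.measure_eq_iSup_isClosed_of_ne_top (measure_ne_top σ A)]
  refine iSup_le fun F => iSup_le fun hFA => iSup_le fun hF => ?_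
  exact (key F hF).trans (measure_mono hFA)

/-- positive lower density everywhere -/
theorem density_pos (hv : LVF.S_vol) (hd : LVF.S_dens) (h : LVF.IsBody p e)
    (hpush : Same (push f TX) (bodyCurrent e)) (hiso : Isometry f)
    (hsurj : Function.Surjective f) (x : X) : 0 < lowerDensity TX x := by
  obtain ⟨c, hc, hcv⟩ := hv (n + 1) (range e) p h.compact h.convex h.interior
  set F : X → Rn (n + 1) := fun x => e (f x) with hF
  have hFinj : Function.Injective F := h.inj.comp hiso.injective
  have hne : Nonempty X := ⟨x⟩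
  set G : Rn (n + 1) → X := Function.invFun F with hG
  have hGF : ∀ x, G (F x) = x := Function.leftInverse_invFun hFinj
  have hrange : ∀ u ∈ range e, F (G u) = u := by
    rintro _ ⟨y, rfl⟩
    obtain ⟨x, rfl⟩ := hsurj y
    have : e (f x) = F x := rfl
    rw [this, hGF]
  have hFd : ∀ a b, dist a b = p (F a - F b) := by
    intro a b
    rw [← hiso.dist_eq, h.dist_eq]
  have hGd : ∀ u ∈ range e, ∀ v ∈ range e, dist (G u) (G v) = p (u - v) := by
    intro u hu v hv
    rw [hFd, hrange u hu, hrange v hv]
  obtain ⟨B, hB, hBb⟩ := LVF.seminorm_bound p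
  have hGl : LipschitzOnWith B.toNNReal G (range e) := by
    refine LipschitzOnWith.of_dist_le_mul fun u hu v hv => ?_
    rw [hGd u hu v hv, dist_eq_norm, Real.coe_toNNReal _ hB.le]
    exact hBb _
  have hGm : AEMeasurable G ((volume : Measure (Rn (n + 1))).restrict (range e)) :=
    hGl.continuousOn.aemeasurable h.measurableSet
  have hfin : IsFiniteMeasure ((volume : Measure (Rn (n + 1))).restrict (range e)) :=
    ⟨by rw [Measure.restrict_apply_univ]; exact h.volume_lt_top⟩
  set σ : Measure X := ((volume : Measure (Rn (n + 1))).restrict (range e)).map G with hσ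
  have hσf : IsFiniteMeasure σ := by
    rw [hσ]
    infer_instance
  -- the coordinates
  have hcl : ∀ j, Lip (fun x => F x j) := by
    intro j
    obtain ⟨C, hC⟩ := h.lip_coord j
    exact ⟨_, hC.comp hiso.lipschitz⟩
  obtain ⟨L, hL0, hL⟩ := LVF.exists_common hcl
  set C : ℝ≥0 := L ^ (n + 1) with hC
  have hCpos : 0 < C := by positivity
  -- the functional at the coordinates
  have hval : ∀ g : X → ℝ, BLip g → TX g (fun j x => F x j) = ∫ x, g x ∂σ := by
    intro g hg
    have hinv : ∃ finv : Y → X, ∀ y, f (finv y) = y := ⟨fun y => (hsurj y).choose,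
      fun y => (hsurj y).choose_spec⟩
    obtain ⟨finv, hfinv⟩ := hinv
    have hfinv' : ∀ x, finv (f x) = x := fun x => hiso.injective (hfinv _)
    have hgb : BLip (fun y => g (finv y)) := by
      obtain ⟨⟨K, hK⟩, M, hM⟩ := hg
      refine ⟨⟨K, LipschitzWith.of_dist_le_mul fun y y' => ?_⟩, M, fun y => hM _⟩
      have h1 := hK.dist_le_mul (finv y) (finv y')
      rwa [← hiso.dist_eq, hfinv, hfinv] at h1
    have e1 := hpush (fun y => g (finv y)) (fun j y => e y j) hgb h.lip_coord
    have e2 : push f TX (fun y => g (finv y)) (fun j y => e y j) = TX g (fun j x => F x j) := by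
      unfold push
      congr 1
      ext x
      simp [hfinv']
    have hext : ∀ y, LVF.exte e (fun y => g (finv y)) (e y) = g (finv y) := fun y =>
      h.exte_apply _ y
    have e3 := h.body_coord hd (LVF.exte e (fun y => g (finv y)))
    simp only [hext] at e3
    rw [← e2, e1]
    have e4 : bodyCurrent e (fun y => g (finv y)) (fun j y => e y j) =
        ∫ u in range e, LVF.exte e (fun y => g (finv y)) u := e3
    rw [e4, hσ, integral_map hGm (LVR.BLip.measurable hg).aestronglyMeasurable]
    refine setIntegral_congr_fun h.measurableSet fun u hu => ?_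
    obtain ⟨y, rfl⟩ := hu
    rw [hext]
    congr 1
    apply hFinj
    rw [hrange (e y) ⟨y, rfl⟩, hF]
    simp only
    rw [hfinv]
  -- lower bound of the mass measure
  have hlow : (C⁻¹ : ℝ≥0) • σ ≤ massMeasure TX := by
    refine le_sInf ?_
    rintro ν ⟨hνf, hν⟩
    have h1 : σ ≤ C • ν := by
      refine measure_le fun g hg => ?_
      rw [← hval g hg]
      have h2 := hν g (fun j x => F x j) (fun _ => L) hg hL
      rw [Finset.prod_const, Finset.card_univ, Fintype.card_fin] at h2
      rw [hC]
      push_cast
      exact h2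
    calc (C⁻¹ : ℝ≥0) • σ ≤ (C⁻¹ : ℝ≥0) • (C • ν) := by gcongr
      _ = ν := by rw [smul_smul, inv_mul_cancel₀ hCpos.ne', one_smul]
  have hkey : ∀ᶠ r : ℝ in 𝓝[>] 0, ((C⁻¹ : ℝ≥0) : ℝ≥0∞) * ENNReal.ofReal c ≤
      massMeasure TX (Metric.closedBall x r) / ENNReal.ofReal (r ^ (n + 1)) := by
    filter_upwards [Ioc_mem_nhdsGT one_pos] with r hr
    have hr0 : 0 < r := hr.1
    have h1 : ENNReal.ofReal (c * r ^ (n + 1)) ≤ σ (Metric.closedBall x r) := by
      refine (hcv (F x) ⟨f x, rfl⟩ r hr0 hr.2).trans ?_
      rw [hσ, Measure.map_apply_of_aemeasurable hGm Metric.isClosed_closedBall.measurableSet]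
      refine (measure_mono ?_).trans (Measure.le_restrict_apply _ _)
      rintro u ⟨hu, hpu⟩
      refine ⟨?_, hu⟩
      rw [mem_preimage, Metric.mem_closedBall, hFd, hrange u hu]
      exact hpu
    have h3 := hlow (Metric.closedBall x r)
    rw [ENNReal.le_div_iff_mul_le (Or.inl (by simpa using pow_pos hr0 (n + 1)))
      (Or.inl ENNReal.ofReal_ne_top)]
    refine le_trans ?_ h3
    rw [mul_assoc, ← ENNReal.ofReal_mul hc.le]
    have h4 : ((C⁻¹ : ℝ≥0) • σ) (Metric.closedBall x r) =
        ((C⁻¹ : ℝ≥0) : ℝ≥0∞) * σ (Metric.closedBall x r) := rfl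
    rw [h4]
    gcongr
  refine lt_of_lt_of_le ?_ (le_liminf_of_le (by isBoundedDefault) hkey)
  refine ENNReal.mul_pos ?_ ?_
  · rw [ENNReal.coe_ne_zero]
    exact (inv_pos.2 hCpos).ne'
  · simpa using hc

end

end Pool.Agent.W674.LVG
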